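import Pool.Agent.Y252.PL.FB

/-!
# Functions of high positive frequency
-/

set_option autoImplicit false

namespace Pool.Agent.Y168.PL

open MeasureTheory Set Pool.Agent.Y290.PL Filter Topology
open scoped ENNReal FourierTransform

/-- sums of series of integrable functions -/
theorem int_tsum' {μ : Measure ℝ} {F : ℕ → ℝ → ℂ} (hF : ∀ j, Integrable (F j) μ)
    (hS : Summable fun j => ∫ ξ, ‖F j ξ‖ ∂μ) :
    ∫ ξ, ‖∑' j, F j ξ‖ ∂μ ≤ ∑' j, ∫ ξ, ‖F j ξ‖ ∂μ := by
  have hm : AEStronglyMeasurable (fun ξ => ∑' j, F j ξ) μ :=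
    (AEMeasurable.tsum fun j => (hF j).aemeasurable).aestronglyMeasurable
  have hnn : ∀ j, 0 ≤ ∫ ξ, ‖F j ξ‖ ∂μ := fun j => integral_nonneg fun _ => norm_nonneg _
  have hle : ∫⁻ ξ, ‖∑' j, F j ξ‖ₑ ∂μ ≤ ENNReal.ofReal (∑' j, ∫ ξ, ‖F j ξ‖ ∂μ) := by
    calc ∫⁻ ξ, ‖∑' j, F j ξ‖ₑ ∂μ ≤ ∫⁻ ξ, ∑' j, ‖F j ξ‖ₑ ∂μ :=
          lintegral_mono fun ξ => enorm_tsum_le_tsum_enorm
      _ = ∑' j, ∫⁻ ξ, ‖F j ξ‖ₑ ∂μ := lintegral_tsum fun j => (hF j).aestronglyMeasurable.enorm
      _ = ∑' j, ENNReal.ofReal (∫ ξ, ‖F j ξ‖ ∂μ) := by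
          congr 1
          funext j
          exact (ofReal_integral_norm_eq_lintegral_enorm (hF j)).symm
      _ = _ := (ENNReal.ofReal_tsum_of_nonneg hnn hS).symm
  have hi : Integrable (fun ξ => ∑' j, F j ξ) μ := ⟨hm, hle.trans_lt ENNReal.ofReal_lt_top⟩
  have h1 := ofReal_integral_norm_eq_lintegral_enorm hi
  rw [← h1] at hle
  exact (ENNReal.ofReal_le_ofReal_iff (tsum_nonneg hnn)).1 hle

theorem norm_ej (j : ℤ) (t : ℝ) : ‖ej j t‖ = 1 := by
  rw [ej]
  exact Complex.norm_exp_ofReal_mul_I _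

theorem cont_ej (j : ℤ) : Continuous (ej j) := by
  unfold ej
  fun_prop

/-- integrals against a function with positive frequencies -/
theorem int_A {A : ℝ → ℂ} {a : ℕ → ℂ} (hA : FA A a) {G : ℝ → ℂ} (hG : Integrable G) (lam : ℝ) :
    ∫ y, G y * A (lam * y) = ∑' j, a j * 𝓕 G (-((j + 1) * (lam / (2 * Real.pi)))) := by
  have hint : ∀ j : ℕ, Integrable (fun y => G y * (a j * ej (j + 1) (lam * y))) := by
    intro j
    refine (hG.const_mul (a j)).mono ?_ (Eventually.of_forall fun y => ?_)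
    · have hc : Continuous (fun y => a j * ej (j + 1) (lam * y)) :=
        continuous_const.mul ((cont_ej _).comp (continuous_const.mul continuous_id))
      exact hG.aestronglyMeasurable.mul hc.aestronglyMeasurable
    · rw [norm_mul, norm_mul, norm_ej, mul_one, norm_mul, mul_comm]
  have hS : Summable fun j : ℕ => ∫ y, ‖G y * (a j * ej (j + 1) (lam * y))‖ := by
    have e1 : ∀ j : ℕ, ∫ y, ‖G y * (a j * ej (j + 1) (lam * y))‖ = (∫ y, ‖G y‖) * ‖a j‖ := by
      intro j
      rw [← integral_mul_const]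
      refine integral_congr_ae (Eventually.of_forall fun y => ?_)
      simp only [norm_mul, norm_ej, mul_one]
    simp only [e1]
    exact hA.sa.mul_left _
  have h := integral_tsum_of_summable_integral_norm hint hS
  have e2 : ∫ y, G y * A (lam * y) = ∫ y, ∑' j : ℕ, G y * (a j * ej (j + 1) (lam * y)) := by
    refine integral_congr_ae (Eventually.of_forall fun y => ?_)
    beta_reduce
    rw [hA.eq, tsum_mul_left]
  rw [e2, ← h]
  refine tsum_congr fun j => ?_
  rw [Real.fourier_real_eq_integral_exp_smul, ← integral_const_mul]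
  refine integral_congr_ae (Eventually.of_forall fun y => ?_)
  simp only [ej, smul_eq_mul]
  have e3 : Complex.exp ((((((j : ℕ) : ℤ) + 1 : ℤ) : ℝ) * (lam * y) : ℝ) * Complex.I) =
      Complex.exp (((-2 * Real.pi * y * -((j + 1) * (lam / (2 * Real.pi))) : ℝ) : ℂ) *
        Complex.I) := by
    congr 3
    have := Real.pi_ne_zero
    push_cast
    field_simp
  rw [e3]
  ring

/-- translation of the Fourier transform -/
theorem four_mod (G : ℝ → ℂ) (ξ w : ℝ) :
    𝓕 (fun v : ℝ => Complex.exp (((-2 * Real.pi * v * ξ : ℝ) : ℂ) * Complex.I) * G v) w =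
      𝓕 G (w + ξ) := by
  rw [Real.fourier_real_eq_integral_exp_smul, Real.fourier_real_eq_integral_exp_smul]
  refine integral_congr_ae (Eventually.of_forall fun v => ?_)
  simp only [smul_eq_mul]
  rw [← mul_assoc, ← Complex.exp_add]
  congr 2
  push_cast
  ring

theorem four_A {A : ℝ → ℂ} {a : ℕ → ℂ} (hA : FA A a) {G : ℝ → ℂ} (hG : Integrable G) (lam ξ : ℝ) :
    𝓕 (fun y => G y * A (lam * y)) ξ =
      ∑' j, a j * 𝓕 G (ξ - ((j + 1) * (lam / (2 * Real.pi)))) := by
  rw [Real.fourier_real_eq_integral_exp_smul]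
  have hE : Integrable (fun v : ℝ =>
      Complex.exp (((-2 * Real.pi * v * ξ : ℝ) : ℂ) * Complex.I) * G v) := by
    refine hG.mono ?_ (Eventually.of_forall fun y => ?_)
    · have hc : Continuous fun v : ℝ =>
        Complex.exp (((-2 * Real.pi * v * ξ : ℝ) : ℂ) * Complex.I) := by fun_prop
      exact hc.aestronglyMeasurable.mul hG.aestronglyMeasurable
    · rw [norm_mul, Complex.norm_exp_ofReal_mul_I, one_mul]
  have h := int_A hA hE lam
  have e1 : ∫ v : ℝ, Complex.exp (((-2 * Real.pi * v * ξ : ℝ) : ℂ) * Complex.I) •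
      (G v * A (lam * v)) = ∫ v : ℝ,
      Complex.exp (((-2 * Real.pi * v * ξ : ℝ) : ℂ) * Complex.I) * G v * A (lam * v) := by
    refine integral_congr_ae (Eventually.of_forall fun y => ?_)
    simp only [smul_eq_mul]
    ring
  rw [e1, h]
  refine tsum_congr fun j => ?_
  rw [four_mod]
  congr 2
  ring

theorem shift_Iic (f : ℝ → ℝ) (c : ℝ) : ∫ ξ in Iic (0 : ℝ), f (ξ - c) = ∫ η in Iic (-c), f η := by
  have h0 := integral_sub_right_eq_self (fun η => (Iic (-c)).indicator f η) c (μ := volume)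
  rw [← integral_indicator measurableSet_Iic, ← integral_indicator measurableSet_Iic, ← h0]
  refine integral_congr_ae (Eventually.of_forall fun ξ => ?_)
  beta_reduce
  by_cases h : ξ ≤ 0
  · rw [indicator_of_mem (by exact h), indicator_of_mem (by
      show ξ - c ≤ -c
      linarith)]
  · rw [indicator_of_notMem (by exact h), indicator_of_notMem (by
      show ¬ (ξ - c ≤ -c)
      intro h'
      exact h (by linarith))]

theorem tail_zero {g : ℝ → ℝ} (hg : Integrable g) :
    Tendsto (fun x : ℝ => ∫ η in Iic (-x), g η) atTop (𝓝 0) := by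
  have h : Tendsto (fun x : ℝ => ∫ η, (Iic (-x)).indicator g η) atTop (𝓝 (∫ η : ℝ, (0 : ℝ))) := by
    refine tendsto_integral_filter_of_dominated_convergence (fun η => ‖g η‖) ?_ ?_ hg.norm ?_
    · exact Eventually.of_forall fun x =>
        hg.aestronglyMeasurable.indicator measurableSet_Iic
    · exact Eventually.of_forall fun x => Eventually.of_forall fun η =>
        norm_indicator_le_norm_self g η
    · refine Eventually.of_forall fun η => ?_
      refine tendsto_const_nhds.congr' ?_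
      filter_upwards [eventually_gt_atTop (-η)] with x hx
      rw [indicator_of_notMem]
      show ¬ (η ≤ -x)
      intro h'
      linarith
  rw [integral_zero] at h
  refine h.congr fun x => ?_
  rw [integral_indicator measurableSet_Iic]

theorem t_AN : S_AN := by
  intro δ A ψ a hδ hA hψ ε hε
  obtain ⟨S, hS⟩ : ∃ S, S = ∑' j, ‖a j‖ := ⟨_, rfl⟩
  have hS0 : 0 ≤ S := by
    rw [hS]
    exact tsum_nonneg fun _ => norm_nonneg _
  have hε' : 0 < ε / (S + 1) := by positivity
  have hSε : S * (ε / (S + 1)) ≤ ε := by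
    rw [mul_div_assoc', div_le_iff₀ (by positivity)]
    nlinarith
  have hδi : Integrable δ := Pool.Agent.Y252.PL.FB.intF0 hδ
  have hFδ : Integrable (𝓕 δ) := Pool.Agent.Y252.PL.FB.intF hδ
  have hpi := Real.pi_pos
  -- the tails
  obtain ⟨R1, hR1⟩ := eventually_atTop.1 ((tail_zero hFδ.norm).eventually (gt_mem_nhds hε'))
  -- Riemann-Lebesgue
  have hG : Integrable (fun y => δ y * ψ y) :=
    (hδ.s.continuous.mul hψ).integrable_of_hasCompactSupport
      ((Pool.Agent.Y252.PL.FB.hcs hδ).mul_right)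
  have hRL := Real.zero_at_infty_fourier (fun y => δ y * ψ y)
  have h1 : ∀ᶠ w in cocompact ℝ, ‖𝓕 (fun y => δ y * ψ y) w‖ < ε / (S + 1) := by
    have := hRL.norm
    rw [norm_zero] at this
    exact this.eventually (gt_mem_nhds hε')
  rw [cocompact_eq_atBot_atTop, eventually_sup] at h1
  obtain ⟨R2, hR2⟩ := eventually_atBot.1 h1.1
  refine ⟨2 * Real.pi * (|R1| + |R2| + 1), fun lam hlam => ?_⟩
  obtain ⟨x, hx⟩ : ∃ x, x = lam / (2 * Real.pi) := ⟨_, rfl⟩
  have hx1 : |R1| + |R2| + 1 ≤ x := by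
    rw [hx, le_div_iff₀ (by positivity)]
    linarith
  have hxj : ∀ j : ℕ, x ≤ (j + 1) * x := by
    intro j
    have hx0 : 0 ≤ x := by
      have := abs_nonneg R1
      have := abs_nonneg R2
      linarith
    have hj : (0 : ℝ) ≤ j := Nat.cast_nonneg j
    nlinarith
  have hj1 : ∀ j : ℕ, R1 ≤ (j + 1) * x := fun j => by
    have := le_abs_self R1
    have := abs_nonneg R2
    have := hxj j
    linarith
  have hj2 : ∀ j : ℕ, -((j + 1) * x) ≤ R2 := fun j => by
    have := neg_abs_le R2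
    have := abs_nonneg R1
    have := hxj j
    linarith
  constructor
  · have e1 : NM (fun y => δ y * A (lam * y)) =
        ∫ ξ in Iic (0 : ℝ), ‖∑' j, a j * 𝓕 δ (ξ - (j + 1) * x)‖ := by
      rw [NM]
      refine integral_congr_ae (Eventually.of_forall fun ξ => ?_)
      beta_reduce
      rw [four_A hA hδi, ← hx]
    have e2 : ∀ j : ℕ, ∫ ξ in Iic (0 : ℝ), ‖a j * 𝓕 δ (ξ - (j + 1) * x)‖ =
        ‖a j‖ * ∫ η in Iic (-((j + 1) * x)), ‖𝓕 δ η‖ := by
      intro j
      rw [← shift_Iic, ← integral_const_mul]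
      refine integral_congr_ae (Eventually.of_forall fun ξ => ?_)
      beta_reduce
      rw [norm_mul]
    have e3 : ∀ j : ℕ, ∫ ξ in Iic (0 : ℝ), ‖a j * 𝓕 δ (ξ - (j + 1) * x)‖ ≤
        ‖a j‖ * (ε / (S + 1)) := by
      intro j
      rw [e2]
      exact mul_le_mul_of_nonneg_left (hR1 _ (hj1 j)).le (norm_nonneg _)
    have e4 : Summable fun j : ℕ => ∫ ξ in Iic (0 : ℝ), ‖a j * 𝓕 δ (ξ - (j + 1) * x)‖ :=
      Summable.of_nonneg_of_le (fun j => integral_nonneg fun _ => norm_nonneg _) e3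
        (hA.sa.mul_right _)
    have e5 : ∀ j : ℕ, Integrable (fun ξ => a j * 𝓕 δ (ξ - (j + 1) * x))
        (volume.restrict (Iic (0 : ℝ))) := fun j =>
      ((hFδ.comp_sub_right ((j + 1) * x)).const_mul (a j)).integrableOn
    rw [e1]
    refine (int_tsum' e5 e4).trans ?_
    refine (e4.tsum_le_tsum e3 (hA.sa.mul_right _)).trans ?_
    rw [tsum_mul_right, ← hS]
    exact hSε
  · have e1 : ∫ y, δ y * A (lam * y) * ψ y = ∫ y, (δ y * ψ y) * A (lam * y) := by
      refine integral_congr_ae (Eventually.of_forall fun y => ?_)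
      beta_reduce
      ring
    rw [e1, int_A hA hG, ← hx]
    have e2 : HasSum (fun j => ‖a j‖ * (ε / (S + 1))) (S * (ε / (S + 1))) := by
      rw [hS]
      exact hA.sa.hasSum.mul_right _
    refine (tsum_of_norm_bounded e2 fun j => ?_).trans hSε
    rw [norm_mul]
    exact mul_le_mul_of_nonneg_left (hR2 _ (hj2 j)).le (norm_nonneg _)

end Pool.Agent.Y168.PL
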