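import Pool.Agent.Y290.PL.Stm

/-!
# Facts on the norm of `BMO` and closure of Fourier integrals
-/

set_option autoImplicit false

namespace Pool.Agent.Y168.PL

open MeasureTheory Set Pool.Agent.Y290.PL
open scoped ENNReal

theorem ii {f : ℝ → ℂ} (hf : LocallyIntegrable f) (a b : ℝ) : IntervalIntegrable f volume a b :=
  (hf.integrableOn_isCompact isCompact_uIcc).intervalIntegrable

theorem avg_add {f g : ℝ → ℂ} (hf : LocallyIntegrable f) (hg : LocallyIntegrable g) (a b : ℝ) :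
    avg (fun x => f x + g x) a b = avg f a b + avg g a b := by
  rw [avg, avg, avg, intervalIntegral.integral_add (ii hf a b) (ii hg a b), add_div]

theorem osc_add {f g : ℝ → ℂ} (hf : LocallyIntegrable f) (hg : LocallyIntegrable g) {a b : ℝ}
    (hab : a < b) : osc (fun x => f x + g x) a b ≤ osc f a b + osc g a b := by
  have h0 : 0 < b - a := sub_pos.2 hab
  rw [osc, osc, osc, ← add_div, avg_add hf hg]
  refine div_le_div_of_nonneg_right ?_ h0.le
  have i1 : IntervalIntegrable (fun x => ‖f x - avg f a b‖) volume a b :=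
    ((ii hf a b).sub intervalIntegrable_const).norm
  have i2 : IntervalIntegrable (fun x => ‖g x - avg g a b‖) volume a b :=
    ((ii hg a b).sub intervalIntegrable_const).norm
  rw [← intervalIntegral.integral_add i1 i2]
  refine intervalIntegral.integral_mono_on hab.le ?_ (i1.add i2) fun x _ => ?_
  · exact (((ii hf a b).add (ii hg a b)).sub intervalIntegrable_const).norm
  · have : f x + g x - (avg f a b + avg g a b) = (f x - avg f a b) + (g x - avg g a b) := by ring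
    rw [this]
    exact norm_add_le _ _

theorem osc_nonneg (f : ℝ → ℂ) {a b : ℝ} (hab : a < b) : 0 ≤ osc f a b :=
  div_nonneg (intervalIntegral.integral_nonneg hab.le fun _ _ => norm_nonneg _)
    (sub_nonneg.2 hab.le)

theorem osc_le_bmo (f : ℝ → ℂ) {a b : ℝ} (hab : a < b) :
    ENNReal.ofReal (osc f a b) ≤ bmo f := by
  rw [bmo]
  exact le_iSup_of_le a (le_iSup_of_le b (le_iSup_of_le hab le_rfl))

theorem bmo_le {f : ℝ → ℂ} {c : ℝ≥0∞}
    (h : ∀ a b : ℝ, a < b → ENNReal.ofReal (osc f a b) ≤ c) : bmo f ≤ c := by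
  rw [bmo]
  exact iSup_le fun a => iSup_le fun b => iSup_le fun hab => h a b hab

theorem bmo_add {f g : ℝ → ℂ} (hf : LocallyIntegrable f) (hg : LocallyIntegrable g) :
    bmo (fun x => f x + g x) ≤ bmo f + bmo g := by
  refine bmo_le fun a b hab => ?_
  refine (ENNReal.ofReal_le_ofReal (osc_add hf hg hab)).trans ?_
  rw [ENNReal.ofReal_add (osc_nonneg f hab) (osc_nonneg g hab)]
  exact add_le_add (osc_le_bmo f hab) (osc_le_bmo g hab)

theorem avg_shift (f : ℝ → ℂ) (s a b : ℝ) :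
    avg (fun x => f (x - s)) a b = avg f (a - s) (b - s) := by
  rw [avg, avg, intervalIntegral.integral_comp_sub_right]
  congr 2
  ring

theorem osc_shift (f : ℝ → ℂ) (s a b : ℝ) :
    osc (fun x => f (x - s)) a b = osc f (a - s) (b - s) := by
  rw [osc, osc, avg_shift,
    intervalIntegral.integral_comp_sub_right (fun x => ‖f x - avg f (a - s) (b - s)‖)]
  congr 1
  ring

theorem bmo_shift (f : ℝ → ℂ) (s : ℝ) : bmo (fun x => f (x - s)) = bmo f := by
  have key : ∀ (f : ℝ → ℂ) (s : ℝ), bmo (fun x => f (x - s)) ≤ bmo f := by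
    intro f s
    refine bmo_le fun a b hab => ?_
    rw [osc_shift]
    exact osc_le_bmo f (by linarith)
  refine le_antisymm (key f s) ?_
  have h := key (fun x => f (x - s)) (-s)
  refine le_trans (le_of_eq ?_) h
  congr 1
  funext x
  simp

theorem t_BM : S_BM := by
  refine ⟨fun f g hf hg => bmo_add hf hg, fun f g hf hg => ⟨hf.1.add hg.1, ?_⟩,
    fun f s => bmo_shift f s⟩
  exact (bmo_add hf.1 hg.1).trans_lt (ENNReal.add_lt_top.2 ⟨hf.2, hg.2⟩)

/-! ### Fourier integrals -/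

theorem norm_ex (x ξ : ℝ) : ‖ex x ξ‖ = 1 := by
  rw [ex]
  exact Complex.norm_exp_ofReal_mul_I _

theorem ex_cont (x : ℝ) : Continuous (ex x) := by
  unfold ex
  fun_prop

theorem ex_add (x y ξ : ℝ) : ex (x + y) ξ = ex x ξ * ex y ξ := by
  rw [ex, ex, ex, ← Complex.exp_add]
  congr 1
  push_cast
  ring

theorem int_ex {a : ℝ → ℂ} (ha : Integrable a) (x : ℝ) : Integrable (fun ξ => a ξ * ex x ξ) := by
  refine ha.mono (ha.aestronglyMeasurable.mul (ex_cont x).aestronglyMeasurable)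
    (Filter.Eventually.of_forall fun ξ => ?_)
  rw [norm_mul, norm_ex, mul_one]

/-- Fourier integrals of functions which vanish on a given set -/
def HX (P : ℝ → Prop) (g : ℝ → ℂ) (N : ℝ) : Prop :=
  ∃ a : ℝ → ℂ, Integrable a ∧ (∀ ξ, P ξ → a ξ = 0) ∧ ∫ ξ, ‖a ξ‖ ≤ N ∧
    ∀ x, g x = ∫ ξ, a ξ * ex x ξ

section
variable {P : ℝ → Prop}

theorem hx_add {g g' : ℝ → ℂ} {N N' : ℝ} (h : HX P g N) (h' : HX P g' N') :
    HX P (fun x => g x + g' x) (N + N') := by
  obtain ⟨a, ha, hs, hN, hg⟩ := h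
  obtain ⟨a', ha', hs', hN', hg'⟩ := h'
  refine ⟨fun ξ => a ξ + a' ξ, ha.add ha', ?_, ?_, ?_⟩
  · intro ξ hξ
    beta_reduce
    rw [hs ξ hξ, hs' ξ hξ, add_zero]
  · refine le_trans ?_ (add_le_add hN hN')
    rw [← integral_add ha.norm ha'.norm]
    exact integral_mono (ha.add ha').norm (ha.norm.add ha'.norm) fun ξ => norm_add_le _ _
  · intro x
    beta_reduce
    rw [hg, hg', ← integral_add (int_ex ha x) (int_ex ha' x)]
    refine integral_congr_ae (Filter.Eventually.of_forall fun ξ => ?_)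
    ring

theorem hx_neg {g : ℝ → ℂ} {N : ℝ} (h : HX P g N) : HX P (fun x => -g x) N := by
  obtain ⟨a, ha, hs, hN, hg⟩ := h
  refine ⟨fun ξ => -a ξ, ha.neg, ?_, ?_, ?_⟩
  · intro ξ hξ
    beta_reduce
    rw [hs ξ hξ, neg_zero]
  · simpa only [norm_neg] using hN
  · intro x
    beta_reduce
    rw [hg, ← integral_neg]
    refine integral_congr_ae (Filter.Eventually.of_forall fun ξ => ?_)
    ring

theorem hx_shift {g : ℝ → ℂ} {N : ℝ} (s : ℝ) (h : HX P g N) : HX P (fun x => g (x - s)) N := by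
  obtain ⟨a, ha, hs, hN, hg⟩ := h
  refine ⟨fun ξ => a ξ * ex (-s) ξ, int_ex ha _, ?_, ?_, ?_⟩
  · intro ξ hξ
    beta_reduce
    rw [hs ξ hξ, zero_mul]
  · simpa only [norm_mul, norm_ex, mul_one] using hN
  · intro x
    beta_reduce
    rw [hg]
    refine integral_congr_ae (Filter.Eventually.of_forall fun ξ => ?_)
    simp only [sub_eq_add_neg, ex_add]
    ring

theorem hx_bd {g : ℝ → ℂ} {N : ℝ} (h : HX P g N) (x : ℝ) : ‖g x‖ ≤ N := by
  obtain ⟨a, ha, hs, hN, hg⟩ := h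
  rw [hg]
  refine (norm_integral_le_integral_norm _).trans ?_
  simpa only [norm_mul, norm_ex, mul_one] using hN

/-- sums of series of integrable functions -/
theorem int_tsum {F : ℕ → ℝ → ℂ} (hF : ∀ j, Integrable (F j))
    (hS : Summable fun j => ∫ ξ, ‖F j ξ‖) :
    Integrable (fun ξ => ∑' j, F j ξ) ∧ ∫ ξ, ‖∑' j, F j ξ‖ ≤ ∑' j, ∫ ξ, ‖F j ξ‖ := by
  have hm : AEStronglyMeasurable (fun ξ => ∑' j, F j ξ) volume :=
    (AEMeasurable.tsum fun j => (hF j).aemeasurable).aestronglyMeasurable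
  have hnn : ∀ j, 0 ≤ ∫ ξ, ‖F j ξ‖ := fun j => integral_nonneg fun _ => norm_nonneg _
  have hle : ∫⁻ ξ, ‖∑' j, F j ξ‖ₑ ≤ ENNReal.ofReal (∑' j, ∫ ξ, ‖F j ξ‖) := by
    calc ∫⁻ ξ, ‖∑' j, F j ξ‖ₑ ≤ ∫⁻ ξ, ∑' j, ‖F j ξ‖ₑ :=
          lintegral_mono fun ξ => enorm_tsum_le_tsum_enorm
      _ = ∑' j, ∫⁻ ξ, ‖F j ξ‖ₑ := lintegral_tsum fun j => (hF j).aestronglyMeasurable.enorm
      _ = ∑' j, ENNReal.ofReal (∫ ξ, ‖F j ξ‖) := by
          congr 1
          funext j
          exact (ofReal_integral_norm_eq_lintegral_enorm (hF j)).symm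
      _ = _ := (ENNReal.ofReal_tsum_of_nonneg hnn hS).symm
  have hi : Integrable (fun ξ => ∑' j, F j ξ) := ⟨hm, hle.trans_lt ENNReal.ofReal_lt_top⟩
  refine ⟨hi, ?_⟩
  have h1 := ofReal_integral_norm_eq_lintegral_enorm hi
  rw [← h1] at hle
  exact (ENNReal.ofReal_le_ofReal_iff (tsum_nonneg hnn)).1 hle

theorem hx_tsum {g : ℕ → ℝ → ℂ} {N : ℕ → ℝ} (h : ∀ j, HX P (g j) (N j)) (hN : Summable N) :
    (∀ x, Summable fun j => g j x) ∧ HX P (fun x => ∑' j, g j x) (∑' j, N j) := by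
  refine ⟨fun x => Summable.of_norm_bounded hN fun j => hx_bd (h j) x, ?_⟩
  choose a ha hs hle hg using h
  have hS : Summable fun j => ∫ ξ, ‖a j ξ‖ :=
    Summable.of_nonneg_of_le (fun j => integral_nonneg fun _ => norm_nonneg _) hle hN
  obtain ⟨h1, h2⟩ := int_tsum ha hS
  refine ⟨fun ξ => ∑' j, a j ξ, h1, ?_, ?_, ?_⟩
  · intro ξ hξ
    simp only [hs _ ξ hξ, tsum_zero]
  · exact h2.trans (hS.tsum_le_tsum hle hN)
  · intro x
    have h3 : Summable fun j => ∫ ξ, ‖a j ξ * ex x ξ‖ := by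
      simpa only [norm_mul, norm_ex, mul_one] using hS
    have h4 := integral_tsum_of_summable_integral_norm (fun j => int_ex (ha j) x) h3
    simp only [hg]
    rw [h4]
    refine integral_congr_ae (Filter.Eventually.of_forall fun ξ => ?_)
    exact tsum_mul_right

end

theorem t_HC : S_HC :=
  ⟨fun _ _ _ _ h h' => hx_add h h', fun _ _ _ _ h h' => hx_add h h', fun _ _ h => hx_neg h,
    fun _ _ s h => hx_shift s h, fun _ _ s h => hx_shift s h,
    fun _ _ h hN => hx_tsum h hN, fun _ _ h hN => hx_tsum h hN⟩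

end Pool.Agent.Y168.PL
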