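import Pool.Agent.Y252.PL.FB
import Pool.Agent.Y168.PL.Hc

/-!
# The lower bound of the norm
-/

set_option autoImplicit false

namespace Pool.Agent.Y168.PL

open MeasureTheory Set Pool.Agent.Y290.PL Filter Topology
open scoped ENNReal FourierTransform ContDiff

theorem fcont {F : ℝ → ℂ} (hF : S01 F) : Continuous (𝓕 F) := by
  have := (𝓕 ((Pool.Agent.Y252.PL.FB.hcs hF).toSchwartzMap hF.s)).continuous
  rw [SchwartzMap.fourier_coe] at this
  exact this

section
variable {χ : ℝ → ℝ} (hχ : Cut χ)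
include hχ

theorem s01 : S01 (fun x => (χ x : ℂ)) := by
  refine ⟨Complex.ofRealCLM.contDiff.comp hχ.s, fun x hx => ?_⟩
  rw [hχ.o x hx, Complex.ofReal_zero]

theorem hd (x : ℝ) : HasDerivAt χ (deriv χ x) x :=
  (hχ.s.differentiable (by norm_num) x).hasDerivAt

theorem dX : deriv (fun x => (χ x : ℂ)) = fun x => ((deriv χ x : ℝ) : ℂ) := by
  funext x
  exact (hd hχ x).ofReal_comp.deriv

theorem d_zero {x : ℝ} (hx : x ∉ Icc (0 : ℝ) 1) : deriv χ x = 0 := by
  have h1 : χ =ᶠ[𝓝 x] fun _ => (0 : ℝ) := by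
    filter_upwards [isClosed_Icc.isOpen_compl.mem_nhds hx] with y hy
    exact hχ.o y hy
  rw [h1.deriv_eq, deriv_const]

theorem d_cont : Continuous (deriv χ) := hχ.s.continuous_deriv (by norm_num)

theorem d_hcs : HasCompactSupport (deriv χ) := by
  refine HasCompactSupport.of_support_subset_isCompact (isCompact_Icc (a := (0:ℝ)) (b := 1)) ?_
  intro x hx
  by_contra h
  exact hx (d_zero hχ h)

theorem d_int : Integrable (deriv χ) := (d_cont hχ).integrable_of_hasCompactSupport (d_hcs hχ)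

theorem chi_hcs : HasCompactSupport χ := by
  refine HasCompactSupport.of_support_subset_isCompact (isCompact_Icc (a := (0:ℝ)) (b := 1)) ?_
  intro x hx
  by_contra h
  exact hx (hχ.o x h)

theorem chi_int : Integrable χ := hχ.s.continuous.integrable_of_hasCompactSupport (chi_hcs hχ)

theorem d_total : ∫ x, deriv χ x = 0 :=
  integral_eq_zero_of_hasDerivAt_of_integrable (hd hχ) (d_int hχ) (chi_int hχ)

theorem F_zero (hne : ∃ x, χ x ≠ 0) : 𝓕 (fun x => (χ x : ℂ)) 0 ≠ 0 := by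
  obtain ⟨x, hx⟩ := hne
  rw [Real.fourier_real_eq_integral_exp_smul]
  have h1 : ∫ v : ℝ, Complex.exp (((-2 * Real.pi * v * 0 : ℝ) : ℂ) * Complex.I) • (χ v : ℂ) =
      ((∫ v, χ v : ℝ) : ℂ) := by
    rw [← integral_complex_ofReal]
    refine integral_congr_ae (Eventually.of_forall fun v => ?_)
    simp
  rw [h1, Complex.ofReal_ne_zero]
  exact (hχ.s.continuous.integral_pos_of_hasCompactSupport_nonneg_nonzero (chi_hcs hχ)
    (fun y => hχ.nn y) hx).ne'

/-- the pairing of the positive part with the derivative -/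
theorem pair_eq : ∫ x, Pp (fun x => (χ x : ℂ)) x * ((deriv χ x : ℝ) : ℂ) =
    -(2 * Real.pi * Complex.I) *
      ((∫ ξ in Ioi (0 : ℝ), ξ * ‖𝓕 (fun x => (χ x : ℂ)) ξ‖ ^ 2 : ℝ) : ℂ) := by
  obtain ⟨X, hX⟩ : ∃ X : ℝ → ℂ, X = fun x => (χ x : ℂ) := ⟨_, rfl⟩
  have hX1 : S01 X := by rw [hX]; exact s01 hχ
  have hXi := Pool.Agent.Y252.PL.FB.intF hX1
  have hX0 := Pool.Agent.Y252.PL.FB.intF0 hX1
  have hDi : Integrable (fun x => ((deriv χ x : ℝ) : ℂ)) := (d_int hχ).ofReal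
  rw [← hX]
  have e1 : ∫ x, Pp X x * ((deriv χ x : ℝ) : ℂ) =
      ∫ x, ∫ ξ in Ioi (0 : ℝ), 𝓕 X ξ * ex x ξ * ((deriv χ x : ℝ) : ℂ) := by
    refine integral_congr_ae (Eventually.of_forall fun x => ?_)
    beta_reduce
    rw [Pp, integral_mul_const]
  have hint : Integrable (Function.uncurry fun (x ξ : ℝ) =>
      𝓕 X ξ * ex x ξ * ((deriv χ x : ℝ) : ℂ)) (volume.prod (volume.restrict (Ioi (0 : ℝ)))) := by
    have h1 := hDi.mul_prod (hXi.integrableOn (s := Ioi (0 : ℝ)))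
    refine h1.mono ?_ (Eventually.of_forall fun z => ?_)
    · have hc : Continuous (fun z : ℝ × ℝ => ex z.1 z.2) := by
        unfold ex
        fun_prop
      have h2 := h1.aestronglyMeasurable.mul hc.aestronglyMeasurable
      refine h2.congr (Eventually.of_forall fun z => ?_)
      simp only [Function.uncurry, Pi.mul_apply]
      ring
    · simp only [Function.uncurry, norm_mul, norm_ex, mul_one]
      rw [mul_comm]
  rw [e1, integral_integral_swap hint]
  have e2 : ∀ ξ : ℝ, ∫ x, 𝓕 X ξ * ex x ξ * ((deriv χ x : ℝ) : ℂ) =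
      -(2 * Real.pi * Complex.I) * ((ξ * ‖𝓕 X ξ‖ ^ 2 : ℝ) : ℂ) := by
    intro ξ
    have h1 : ∫ x, ex x ξ * ((deriv χ x : ℝ) : ℂ) = 𝓕 (deriv X) (-ξ) := by
      rw [Real.fourier_real_eq_integral_exp_smul, hX, dX hχ]
      refine integral_congr_ae (Eventually.of_forall fun x => ?_)
      simp only [ex, smul_eq_mul]
      congr 3
      ring
    have h2 := Real.fourier_deriv hX0 (hX1.s.differentiable (by norm_num)) (by
      rw [hX, dX hχ]
      exact hDi)
    have h3 : 𝓕 X (-ξ) = (starRingEnd ℂ) (𝓕 X ξ) := by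
      rw [Real.fourier_real_eq_integral_exp_smul, Real.fourier_real_eq_integral_exp_smul,
        ← integral_conj]
      refine integral_congr_ae (Eventually.of_forall fun x => ?_)
      simp only [hX, smul_eq_mul, map_mul, Complex.conj_ofReal, ← Complex.exp_conj,
        Complex.conj_I]
      congr 2
      push_cast
      ring
    simp only [mul_assoc]
    rw [integral_const_mul, h1, h2]
    beta_reduce
    rw [h3]
    simp only [smul_eq_mul]
    have h4 : 𝓕 X ξ * (starRingEnd ℂ) (𝓕 X ξ) = ((‖𝓕 X ξ‖ ^ 2 : ℝ) : ℂ) := by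
      rw [Complex.mul_conj, Complex.normSq_eq_norm_sq]
    push_cast at h4 ⊢
    linear_combination (-(2 * Real.pi * Complex.I * ξ)) * h4
  simp only [e2]
  rw [integral_const_mul, integral_complex_ofReal]

theorem pair_pos (hne : ∃ x, χ x ≠ 0) :
    0 < ∫ ξ in Ioi (0 : ℝ), ξ * ‖𝓕 (fun x => (χ x : ℂ)) ξ‖ ^ 2 := by
  obtain ⟨X, hX⟩ : ∃ X : ℝ → ℂ, X = fun x => (χ x : ℂ) := ⟨_, rfl⟩
  have hX1 : S01 X := by rw [hX]; exact s01 hχ
  have h0 := F_zero hχ hne
  rw [← hX] at h0 ⊢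
  have hc := fcont hX1
  have hX0 := Pool.Agent.Y252.PL.FB.intF0 hX1
  have hb : ∀ ξ, ‖𝓕 X ξ‖ ≤ ∫ x, ‖X x‖ := by
    intro ξ
    rw [Real.fourier_real_eq_integral_exp_smul]
    refine (norm_integral_le_integral_norm _).trans (le_of_eq ?_)
    refine integral_congr_ae (Eventually.of_forall fun x => ?_)
    beta_reduce
    rw [norm_smul, Complex.norm_exp_ofReal_mul_I, one_mul]
  have hint : Integrable (fun ξ : ℝ => ξ * ‖𝓕 X ξ‖ ^ 2) := by
    have h1 := (Pool.Agent.Y252.PL.FB.mom hX1 1).mul_const (∫ x, ‖X x‖)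
    refine h1.mono ?_ (Eventually.of_forall fun ξ => ?_)
    · exact (continuous_id.mul (hc.norm.pow 2)).aestronglyMeasurable
    · simp only [norm_mul, norm_pow, norm_norm, pow_one]
      have h2 : ‖∫ x, ‖X x‖‖ = ∫ x, ‖X x‖ := by
        rw [Real.norm_of_nonneg (integral_nonneg fun _ => norm_nonneg _)]
      rw [h2, sq, ← mul_assoc]
      exact mul_le_mul_of_nonneg_left (hb ξ) (by positivity)
  rw [setIntegral_pos_iff_support_of_nonneg_ae ?_ hint.integrableOn]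
  · obtain ⟨r, hr, hr1⟩ : ∃ r : ℝ, 0 < r ∧ ∀ ξ, |ξ| < r → 𝓕 X ξ ≠ 0 := by
      have h1 : ∀ᶠ ξ in 𝓝 (0 : ℝ), 𝓕 X ξ ≠ 0 := (hc.tendsto 0).eventually_ne h0
      obtain ⟨r, hr, hr1⟩ := Metric.eventually_nhds_iff.1 h1
      refine ⟨r, hr, fun ξ hξ => hr1 ?_⟩
      rw [Real.dist_eq, sub_zero]
      exact hξ
    have hsub : Ioo 0 r ⊆ Function.support (fun ξ : ℝ => ξ * ‖𝓕 X ξ‖ ^ 2) ∩ Ioi 0 := by
      intro ξ hξ
      refine ⟨?_, hξ.1⟩
      have h2 := hr1 ξ (by rw [abs_of_pos hξ.1]; exact hξ.2)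
      have h3 : 0 < ξ * ‖𝓕 X ξ‖ ^ 2 := mul_pos hξ.1 (pow_pos (norm_pos_iff.2 h2) 2)
      exact h3.ne'
    refine lt_of_lt_of_le ?_ (measure_mono hsub)
    rw [Real.volume_Ioo, sub_zero]
    exact ENNReal.ofReal_pos.2 hr
  · filter_upwards [ae_restrict_mem measurableSet_Ioi] with ξ hξ
    have : (0 : ℝ) < ξ := hξ
    show 0 ≤ ξ * ‖𝓕 X ξ‖ ^ 2
    positivity

end

theorem t_LB : S_LB := by
  obtain ⟨hFB1, hFB2⟩ := Pool.Agent.Y252.PL.FB.t_FB
  intro χ hχ hne
  obtain ⟨X, hX⟩ : ∃ X : ℝ → ℂ, X = fun x => (χ x : ℂ) := ⟨_, rfl⟩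
  have hX1 : S01 X := by rw [hX]; exact s01 hχ
  obtain ⟨D, hD⟩ : ∃ D : ℝ → ℂ, D = fun x => ((deriv χ x : ℝ) : ℂ) := ⟨_, rfl⟩
  have hDc : Continuous D := by
    rw [hD]
    exact Complex.continuous_ofReal.comp (d_cont hχ)
  have hD0 : ∀ x, x ∉ Icc (0 : ℝ) 1 → D x = 0 := by
    intro x hx
    rw [hD]
    beta_reduce
    rw [d_zero hχ hx, Complex.ofReal_zero]
  have hDi : Integrable D := by
    rw [hD]
    exact (d_int hχ).ofReal
  obtain ⟨I, hI⟩ : ∃ I : ℂ, I = ∫ x, Pp X x * D x := ⟨_, rfl⟩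
  have hI0 : 0 < ‖I‖ := by
    rw [norm_pos_iff, hI, hX, hD, pair_eq hχ]
    refine mul_ne_zero ?_ (Complex.ofReal_ne_zero.2 (pair_pos hχ hne).ne')
    exact neg_ne_zero.2 (mul_ne_zero (mul_ne_zero two_ne_zero
      (Complex.ofReal_ne_zero.2 Real.pi_ne_zero)) Complex.I_ne_zero)
  obtain ⟨M, hM⟩ := (isCompact_Icc (a := (0 : ℝ)) (b := 1)).exists_bound_of_continuousOn
    hDc.continuousOn
  have hM0 : 0 ≤ M := (norm_nonneg _).trans (hM 0 ⟨le_rfl, zero_le_one⟩)
  obtain ⟨B, hB⟩ : ∃ B : ℝ, B = ∫ x, ‖D x‖ := ⟨_, rfl⟩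
  have hB0 : 0 ≤ B := by
    rw [hB]
    exact integral_nonneg fun _ => norm_nonneg _
  refine ⟨‖I‖ / (2 * (M + 1)), ‖I‖ / (2 * (1 + B)), by positivity, by positivity, ?_⟩
  intro F hF h1 h2
  obtain ⟨Y, hY⟩ : ∃ Y : ℝ → ℂ, Y = fun x => F x - (χ x : ℂ) := ⟨_, rfl⟩
  have hY1 : S01 Y := by
    rw [hY]
    refine ⟨hF.s.sub (s01 hχ).s, fun x hx => ?_⟩
    rw [hF.o x hx, hχ.o x hx, Complex.ofReal_zero, sub_zero]
  have h1' : ‖∫ x, Y x * D x‖ ≤ ‖I‖ / (2 * (1 + B)) := by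
    rw [hY, hD]
    exact h1
  have h2' : NM Y ≤ ‖I‖ / (2 * (1 + B)) := by
    rw [hY]
    exact h2
  have hFe : F = fun y => X y + Y y := by
    funext y
    rw [hX, hY]
    ring
  have hPp : ∀ x, Pp F x = Pp X x + (Y x - Pm Y x) := by
    intro x
    have h3 := (hFB2 X Y hX1 hY1).1 x
    rw [← hFe] at h3
    rw [h3]
    have h4 := (hFB1 Y hY1).2.1 x
    rw [h4]
    ring
  have hcont : ∀ G, S01 G → Continuous (Pp G) ∧ Continuous (Pm G) := fun G hG =>
    ⟨(hFB1 G hG).2.2.2.2.1.continuous, (hFB1 G hG).2.2.2.2.2.1.continuous⟩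
  have hDcs : HasCompactSupport D := by
    refine HasCompactSupport.of_support_subset_isCompact (isCompact_Icc (a := (0:ℝ)) (b := 1)) ?_
    intro x hx
    by_contra h
    exact hx (hD0 x h)
  have hmi : ∀ g : ℝ → ℂ, Continuous g → Integrable (fun x => g x * D x) := fun g hg =>
    (hg.mul hDc).integrable_of_hasCompactSupport hDcs.mul_left
  -- lower bound for the pairing
  have e1 : ∫ x, Pp F x * D x = I + ((∫ x, Y x * D x) - ∫ x, Pm Y x * D x) := by
    have e0 : Integrable (fun x => Y x * D x - Pm Y x * D x) :=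
      (hmi Y hY1.s.continuous).sub (hmi _ (hcont Y hY1).2)
    rw [hI, ← integral_sub (hmi Y hY1.s.continuous) (hmi _ (hcont Y hY1).2),
      ← integral_add (hmi _ (hcont X hX1).1) e0]
    refine integral_congr_ae (Eventually.of_forall fun x => ?_)
    beta_reduce
    rw [hPp]
    ring
  have e2 : ‖∫ x, Pm Y x * D x‖ ≤ ‖I‖ / (2 * (1 + B)) * B := by
    refine (norm_integral_le_integral_norm _).trans ?_
    have e0 : ‖I‖ / (2 * (1 + B)) * B = ∫ x, ‖I‖ / (2 * (1 + B)) * ‖D x‖ := by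
      rw [integral_const_mul, ← hB]
    rw [e0]
    refine integral_mono (hmi _ (hcont Y hY1).2).norm (hDi.norm.const_mul _) fun x => ?_
    beta_reduce
    rw [norm_mul]
    exact mul_le_mul_of_nonneg_right (((hFB1 Y hY1).2.2.2.2.2.2.2 x).trans h2') (norm_nonneg _)
  have e3 : ‖I‖ / 2 ≤ ‖∫ x, Pp F x * D x‖ := by
    have h5 : ‖I‖ ≤ ‖∫ x, Pp F x * D x‖ + ‖(∫ x, Y x * D x) - ∫ x, Pm Y x * D x‖ := by
      have h6 : I = (∫ x, Pp F x * D x) - ((∫ x, Y x * D x) - ∫ x, Pm Y x * D x) := by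
        rw [e1]
        ring
      calc ‖I‖ = ‖(∫ x, Pp F x * D x) - ((∫ x, Y x * D x) - ∫ x, Pm Y x * D x)‖ := by rw [← h6]
        _ ≤ _ := norm_sub_le _ _
    have h7 : ‖(∫ x, Y x * D x) - ∫ x, Pm Y x * D x‖ ≤ ‖I‖ / 2 := by
      refine (norm_sub_le _ _).trans ((add_le_add h1' e2).trans (le_of_eq ?_))
      field_simp
    linarith
  -- upper bound
  have e4 : ‖∫ x, Pp F x * D x‖ ≤ M * osc (Pp F) 0 1 := by
    have h8 : ∫ x, D x = 0 := by
      rw [hD, integral_complex_ofReal, d_total hχ, Complex.ofReal_zero]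
    have h9 : ∫ x, Pp F x * D x = ∫ x, (Pp F x - avg (Pp F) 0 1) * D x := by
      have : ∫ x, (Pp F x - avg (Pp F) 0 1) * D x =
          (∫ x, Pp F x * D x) - ∫ x, avg (Pp F) 0 1 * D x := by
        rw [← integral_sub (hmi _ (hcont F hF).1) (hDi.const_mul _)]
        refine integral_congr_ae (Eventually.of_forall fun x => ?_)
        beta_reduce
        ring
      rw [this, integral_const_mul, h8, mul_zero, sub_zero]
    have h10 : ∫ x, (Pp F x - avg (Pp F) 0 1) * D x =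
        ∫ x in (0 : ℝ)..1, (Pp F x - avg (Pp F) 0 1) * D x := by
      rw [intervalIntegral.integral_of_le zero_le_one, ← integral_Icc_eq_integral_Ioc]
      symm
      refine setIntegral_eq_integral_of_forall_compl_eq_zero fun x hx => ?_
      rw [hD0 x hx, mul_zero]
    rw [h9, h10]
    refine (intervalIntegral.norm_integral_le_integral_norm zero_le_one).trans ?_
    rw [osc, sub_zero, div_one, ← intervalIntegral.integral_const_mul]
    have hc1 : Continuous (fun x => Pp F x - avg (Pp F) 0 1) :=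
      (hcont F hF).1.sub continuous_const
    have hc2 : Continuous (fun x => ‖(Pp F x - avg (Pp F) 0 1) * D x‖) := (hc1.mul hDc).norm
    have hc3 : Continuous (fun x => M * ‖Pp F x - avg (Pp F) 0 1‖) :=
      continuous_const.mul hc1.norm
    refine intervalIntegral.integral_mono_on zero_le_one
      (hc2.intervalIntegrable _ _) (hc3.intervalIntegrable _ _) fun x hx => ?_
    rw [norm_mul, mul_comm]
    exact mul_le_mul_of_nonneg_right (hM x hx) (norm_nonneg _)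
  have e5 : ‖I‖ / (2 * (M + 1)) ≤ osc (Pp F) 0 1 := by
    have ho := osc_nonneg (Pp F) (zero_lt_one (α := ℝ))
    rw [div_le_iff₀ (by positivity)]
    nlinarith
  exact (ENNReal.ofReal_le_ofReal e5).trans (osc_le_bmo _ zero_lt_one)

end Pool.Agent.Y168.PL
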